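import Pool.Agent.Helper44.TOT.Defs

set_option autoImplicit false

namespace Pool.Agent.Helper6.TOT

open Pool.Agent.Helper44.TOT

theorem expAvg : ExpAvg := by
  classical
  intro E R M hE hR hER
  -- the primes in `(R, M]`
  set P : Finset ℕ := (Finset.Ioc R M).filter Nat.Prime with hP
  have hR0 : (0 : ℝ) < R := by exact_mod_cast (by omega : 0 < R)
  -- pointwise bound
  have hpt : ∀ n ∈ Finset.Icc 1 M, Real.exp (E * sig R n) ≤
      ∑ S ∈ P.powerset, if (∏ l ∈ S, l) ∣ n then ∏ l ∈ S, (2 * E / (l : ℝ)) else 0 := by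
    intro n hn
    rw [Finset.mem_Icc] at hn
    set T : Finset ℕ := n.primeFactors.filter (fun l => R < l) with hT
    have hTP : T ⊆ P := by
      intro l hl
      rw [hT, Finset.mem_filter] at hl
      have h1 := Nat.prime_of_mem_primeFactors hl.1
      have h2 := Nat.le_of_mem_primeFactors hl.1
      rw [hP, Finset.mem_filter, Finset.mem_Ioc]
      exact ⟨⟨hl.2, h2.trans hn.2⟩, h1⟩
    have h1 : Real.exp (E * sig R n) = ∏ l ∈ T, Real.exp (E / (l : ℝ)) := by
      unfold sig
      rw [← hT, Finset.mul_sum, Real.exp_sum]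
      apply Finset.prod_congr rfl
      intro l _
      congr 1
      ring
    have h2 : ∏ l ∈ T, Real.exp (E / (l : ℝ)) ≤ ∏ l ∈ T, (1 + 2 * E / (l : ℝ)) := by
      apply Finset.prod_le_prod
      · intro l _
        exact (Real.exp_pos _).le
      · intro l hl
        rw [hT, Finset.mem_filter] at hl
        have hl' : (R : ℝ) < l := by exact_mod_cast hl.2
        have hl0 : (0 : ℝ) < l := hR0.trans hl'
        have hx0 : 0 ≤ E / (l : ℝ) := by positivity
        have hx1 : E / (l : ℝ) ≤ 1 / 4 := by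
          rw [div_le_div_iff₀ hl0 (by norm_num)]
          linarith
        have h3 := Real.exp_bound_div_one_sub_of_interval hx0 (by linarith)
        have h4 : 1 / (1 - E / (l : ℝ)) ≤ 1 + 2 * (E / (l : ℝ)) := by
          rw [div_le_iff₀ (by linarith)]
          nlinarith
        have h5 : 2 * E / (l : ℝ) = 2 * (E / (l : ℝ)) := by ring
        rw [h5]
        exact h3.trans h4
    have h3 : ∏ l ∈ T, (1 + 2 * E / (l : ℝ)) = ∑ S ∈ T.powerset, ∏ l ∈ S, (2 * E / (l : ℝ)) := by
      rw [Finset.prod_one_add]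
    rw [h1]
    refine h2.trans ?_
    rw [h3]
    rw [← Finset.sum_filter]
    apply Finset.sum_le_sum_of_subset_of_nonneg
    · intro S hS
      rw [Finset.mem_powerset] at hS
      rw [Finset.mem_filter, Finset.mem_powerset]
      refine ⟨hS.trans hTP, ?_⟩
      apply Finset.prod_primes_dvd
      · intro l hl
        have := hS hl
        rw [hT, Finset.mem_filter] at this
        exact (Nat.prime_of_mem_primeFactors this.1).prime
      · intro l hl
        have := hS hl
        rw [hT, Finset.mem_filter] at this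
        exact Nat.dvd_of_mem_primeFactors this.1
    · intro S hS _
      apply Finset.prod_nonneg
      intro l _
      positivity
  have hswap : ∑ n ∈ Finset.Icc 1 M, Real.exp (E * sig R n) ≤
      ∑ S ∈ P.powerset, (M : ℝ) * ∏ l ∈ S, (2 * E / (l : ℝ) ^ 2) := by
    refine (Finset.sum_le_sum hpt).trans ?_
    rw [Finset.sum_comm]
    apply Finset.sum_le_sum
    intro S hS
    rw [Finset.mem_powerset] at hS
    rw [← Finset.sum_filter, Finset.sum_const, nsmul_eq_mul]
    have hcard : (((Finset.Icc 1 M).filter (fun n => (∏ l ∈ S, l) ∣ n)).card : ℝ) ≤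
        (M : ℝ) / (∏ l ∈ S, (l : ℝ)) := by
      have h1 : (Finset.Icc 1 M).filter (fun n => (∏ l ∈ S, l) ∣ n) =
          (Finset.Ioc 0 M).filter (fun n => (∏ l ∈ S, l) ∣ n) := by
        congr 1
      rw [h1, Nat.Ioc_filter_dvd_card_eq_div]
      have h2 := @Nat.cast_div_le ℝ _ _ _ M (∏ l ∈ S, l)
      rw [Nat.cast_prod] at h2
      exact h2
    have hnn : 0 ≤ ∏ l ∈ S, (2 * E / (l : ℝ)) := by
      apply Finset.prod_nonneg
      intro l _
      positivity
    refine (mul_le_mul_of_nonneg_right hcard hnn).trans (le_of_eq ?_)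
    have h3 : ∏ l ∈ S, (2 * E / (l : ℝ) ^ 2) = (∏ l ∈ S, (2 * E / (l : ℝ))) / (∏ l ∈ S, (l : ℝ)) := by
      rw [← Finset.prod_div_distrib]
      apply Finset.prod_congr rfl
      intro l _
      rw [pow_two, div_div]
    rw [h3]
    ring
  refine hswap.trans ?_
  rw [← Finset.mul_sum, ← Finset.prod_one_add]
  have hprod : ∏ l ∈ P, (1 + 2 * E / (l : ℝ) ^ 2) ≤ 2 := by
    have h1 : ∏ l ∈ P, (1 + 2 * E / (l : ℝ) ^ 2) ≤ ∏ l ∈ P, Real.exp (2 * E / (l : ℝ) ^ 2) := by
      apply Finset.prod_le_prod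
      · intro l _
        positivity
      · intro l _
        have := Real.add_one_le_exp (2 * E / (l : ℝ) ^ 2)
        linarith
    rw [← Real.exp_sum] at h1
    have h2 : ∑ l ∈ P, 2 * E / (l : ℝ) ^ 2 ≤ 2 * E * (1 / (R : ℝ)) := by
      have h3 : ∑ l ∈ P, 2 * E / (l : ℝ) ^ 2 ≤ ∑ l ∈ Finset.Ioc R M, 2 * E / (l : ℝ) ^ 2 := by
        apply Finset.sum_le_sum_of_subset_of_nonneg
        · exact Finset.filter_subset _ _
        · intro l _ _
          positivity
      refine h3.trans ?_
      have h4 : ∑ l ∈ Finset.Ioc R M, 2 * E / (l : ℝ) ^ 2 =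
          2 * E * ∑ l ∈ Finset.Ioc R M, ((l : ℝ) ^ 2)⁻¹ := by
        rw [Finset.mul_sum]
        apply Finset.sum_congr rfl
        intro l _
        rw [div_eq_mul_inv]
      rw [h4]
      apply mul_le_mul_of_nonneg_left _ (by positivity)
      by_cases hRM : R ≤ M
      · have h5 := @sum_Ioc_inv_sq_le_sub ℝ _ _ _ R M (by omega) hRM
        have h6 : (0 : ℝ) ≤ (M : ℝ)⁻¹ := by positivity
        rw [one_div]
        linarith
      · rw [Finset.Ioc_eq_empty (by omega)]
        simp
    have h7 : 2 * E * (1 / (R : ℝ)) ≤ 1 / 2 := by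
      rw [mul_one_div, div_le_div_iff₀ hR0 (by norm_num)]
      linarith
    have h8 : Real.exp (∑ l ∈ P, 2 * E / (l : ℝ) ^ 2) ≤ Real.exp (1 / 2) :=
      Real.exp_le_exp.2 (h2.trans h7)
    have h9 : Real.exp (1 / 2) ≤ 2 := by
      have := Real.exp_bound_div_one_sub_of_interval (x := 1 / 2) (by norm_num) (by norm_num)
      norm_num at this ⊢
      exact this
    linarith
  have hM : (0 : ℝ) ≤ M := Nat.cast_nonneg _
  nlinarith

end Pool.Agent.Helper6.TOT
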