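import Pool.Agent.Helper44.TOT.Chain

set_option autoImplicit false

namespace Pool.Agent.Helper6.TOT

open Pool.Agent.Helper44.TOT

/-- monotonicity of `Small`, for large primes -/
theorem small_mono (P Q : ℕ → Prop) (h : ∀ q : ℕ, q.Prime → P q → Q q) (hQ : Small Q) :
    Small P := by
  intro θ hθ
  obtain ⟨X, hX⟩ := hQ θ hθ
  refine ⟨X, fun y hy => ?_⟩
  have h1 : (blk P y : ℝ) ≤ blk Q y := by
    exact_mod_cast blk_mono P Q y (fun q hq _ hp => h q hq hp)
  exact h1.trans (hX y hy)

/-- choose `X` such that `X ≤ x0` forces `K ≤ x0 ^ τ` -/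
theorem exists_rpow_ge (τ : ℝ) (hτ : 0 < τ) (K : ℝ) :
    ∃ X : ℕ, ∀ x0 : ℕ, X ≤ x0 → K ≤ (x0 : ℝ) ^ τ := by
  have h1 := (tendsto_rpow_atTop hτ).comp (tendsto_natCast_atTop_atTop (R := ℝ))
  have h2 := h1.eventually (Filter.eventually_ge_atTop K)
  obtain ⟨X, hX⟩ := Filter.eventually_atTop.1 h2
  exact ⟨X, fun x0 h => hX x0 h⟩

theorem step3 (hP : TheoremP) (hW : WW) (hG : GGavg) : Step3 := by
  intro α β hα hβ
  by_contra hcon
  push Not at hcon
  obtain ⟨θ0, hθ0, hP⟩ := hP
  obtain ⟨hG1, hG2, hG3, hG4⟩ := hG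
  set t1 : ℝ := (α + β) / 2 with ht1
  have hα0 := hα.nonneg
  have ht1α : α < t1 := by rw [ht1]; linarith
  have ht1β : t1 < β := by rw [ht1]; linarith
  have ht10 : 0 ≤ t1 := by linarith
  set D : ℝ := (8 / 7) * (β - t1) with hD
  have hD0 : 0 < D := by rw [hD]; linarith
  set h : ℕ → ℝ := fun q => max 0 (gg q - t1) / D with hh
  set B : ℝ := max 1 ((3 / 2) / D) with hB
  obtain ⟨ε0, τ, X0, hε0, hτ0, hτ1, hX0⟩ := hP B (le_max_left _ _)
  -- smallness of `{1 ≤ h}`
  have hsm1 : Small (fun q => 1 ≤ h q) := by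
    apply small_mono _ (fun q => β + (β - t1) / 8 < gg q) _ (hβ.above _ (by linarith))
    intro q _ hq
    simp only [hh] at hq
    rw [le_div_iff₀ hD0, one_mul] at hq
    have h1 : D ≤ gg q - t1 := by
      rcases le_max_iff.1 hq with h2 | h2
      · linarith
      · exact h2
    rw [hD] at h1
    show β + (β - t1) / 8 < gg q
    linarith
  obtain ⟨X1, hX1⟩ := hsm1 ε0 hε0
  obtain ⟨X2, hX2⟩ := exists_rpow_ge τ hτ0 X1
  obtain ⟨x0, hx0, hwin⟩ := hW α t1 θ0 τ hα ht1α hθ0 hτ0 hτ1 (max X0 X2)
  have hx00 : X0 ≤ x0 := (le_max_left _ _).trans hx0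
  have hx02 : X2 ≤ x0 := (le_max_right _ _).trans hx0
  have hPH : PH h B x0 τ θ0 ε0 := by
    refine ⟨?_, ?_, ?_, ?_, ?_⟩
    · intro q
      exact div_nonneg (le_max_left _ _) hD0.le
    · intro q hq
      have h2 := hG2 q hq.two_le
      refine le_trans ?_ (le_max_right _ _)
      apply div_le_div_of_nonneg_right _ hD0.le
      apply max_le (by norm_num)
      linarith [h2.2]
    · exact hG3 t1 D ht10 hD0
    · intro y hy1 hy2
      refine le_trans ?_ (hwin y hy1 hy2)
      have : blk (fun q => 0 < h q) y ≤ blk (fun q => t1 < gg q) y := by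
        apply blk_mono
        intro q _ _ hq
        by_contra hc
        have hc' : gg q ≤ t1 := not_lt.1 hc
        have h3 : h q = 0 := by
          simp only [hh]
          rw [max_eq_left (by linarith), zero_div]
        linarith
      exact_mod_cast this
    · intro y hy
      apply hX1
      have h3 := hX2 x0 hx02
      exact_mod_cast h3.trans hy
  have hfin := hX0 h x0 hx00 hPH
  apply hβ.below (t1 + (6 / 7) * (β - t1)) (by linarith)
  apply small_mono _ (fun q => 3 / 4 ≤ h q) _ hfin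
  intro q _ hq
  have hq' : t1 + (6 / 7) * (β - t1) < gg q := hq
  show 3 / 4 ≤ max 0 (gg q - t1) / D
  rw [le_div_iff₀ hD0]
  refine le_trans ?_ (le_max_right _ _)
  rw [hD]
  linarith

theorem claimL (hP : TheoremP) (hG : GGavg) : ClaimL := by
  obtain ⟨θ0, hθ0, hP⟩ := hP
  obtain ⟨hG1, hG2, hG3, hG4⟩ := hG
  refine ⟨θ0, hθ0, ?_⟩
  rintro α t hα ht ⟨X, hX⟩
  have hα0 := hα.nonneg
  have hα1 := hα.le
  set t' : ℝ := min t 2 with ht'
  have ht'α : α < t' := lt_min ht (by linarith)
  have ht'2 : t' ≤ 2 := min_le_right _ _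
  have ht't : t' ≤ t := min_le_left _ _
  set η : ℝ := (t' - α) / 9 with hη
  have hη0 : 0 < η := by rw [hη]; linarith
  set w : ℝ := t' - η - α with hw
  have hwη : w = 8 * η := by rw [hw, hη]; ring
  have hw0 : 0 < w := by rw [hwη]; linarith
  set D : ℝ := (8 / 7) * w with hD
  have hD0 : 0 < D := by rw [hD]; linarith
  have ht'η : 0 ≤ t' - η := by linarith
  set h : ℕ → ℝ := fun q => max 0 ((t' - η) - gg q + 1 / Real.log q) / D with hh
  set B : ℝ := max 1 (4 / D) with hB
  obtain ⟨ε0, τ, X0, hε0, hτ0, hτ1, hX0⟩ := hP B (le_max_left _ _)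
  -- `1 / log q` is small for large `q`
  obtain ⟨K, hK⟩ : ∃ K : ℕ, ∀ q : ℕ, K ≤ q → 1 / Real.log q ≤ min η (w / 57) := by
    have h1 : Filter.Tendsto (fun q : ℕ => 1 / Real.log (q : ℝ)) Filter.atTop (nhds 0) := by
      have h2 := Real.tendsto_log_atTop.comp (tendsto_natCast_atTop_atTop (R := ℝ))
      have h3 := h2.inv_tendsto_atTop
      refine h3.congr (fun q => ?_)
      simp [one_div]
    have h4 := h1.eventually (ge_mem_nhds (a := min η (w / 57)) (b := 0) (by
      apply lt_min hη0; linarith))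
    obtain ⟨K, hK⟩ := Filter.eventually_atTop.1 h4
    exact ⟨K, hK⟩
  -- smallness of `{1 ≤ h}`
  have hsm1 : ∃ X1 : ℕ, ∀ y : ℕ, X1 ≤ y → (blk (fun q => 1 ≤ h q) y : ℝ) ≤ ε0 * (y / Real.log y) := by
    obtain ⟨X1, hX1⟩ := hα.below (α - w / 8) (by linarith) ε0 hε0
    refine ⟨max X1 (2 * K), fun y hy => ?_⟩
    have hy1 : X1 ≤ y := (le_max_left _ _).trans hy
    have hy2 : 2 * K ≤ y := (le_max_right _ _).trans hy
    refine le_trans ?_ (hX1 y hy1)
    have : blk (fun q => 1 ≤ h q) y ≤ blk (fun q => gg q < α - w / 8) y := by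
      unfold blk
      apply Finset.card_le_card
      intro q hq
      simp only [Finset.mem_filter, Finset.mem_Ioc] at hq ⊢
      refine ⟨hq.1, hq.2.1, ?_⟩
      have hKq : K ≤ q := by omega
      have h5 := (hK q hKq).trans (min_le_right _ _)
      have h6 := hq.2.2
      simp only [hh] at h6
      rw [le_div_iff₀ hD0, one_mul] at h6
      have h7 : D ≤ (t' - η) - gg q + 1 / Real.log q := by
        rcases le_max_iff.1 h6 with h2 | h2
        · linarith
        · exact h2
      rw [hD] at h7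
      linarith
    exact_mod_cast this
  obtain ⟨X1, hX1⟩ := hsm1
  obtain ⟨X2, hX2⟩ := exists_rpow_ge τ hτ0 (max X1 (max X (2 * K)) : ℕ)
  set x0 : ℕ := max X0 X2 with hx0
  have hx00 : X0 ≤ x0 := le_max_left _ _
  have hx02 : X2 ≤ x0 := le_max_right _ _
  have hlow : ∀ y : ℕ, (x0 : ℝ) ^ τ ≤ y → max X1 (max X (2 * K)) ≤ y := by
    intro y hy
    exact_mod_cast (hX2 x0 hx02).trans hy
  have hPH : PH h B x0 τ θ0 ε0 := by
    refine ⟨?_, ?_, ?_, ?_, ?_⟩
    · intro q
      exact div_nonneg (le_max_left _ _) hD0.le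
    · intro q hq
      have h2 := hG2 q hq.two_le
      refine le_trans ?_ (le_max_right _ _)
      apply div_le_div_of_nonneg_right _ hD0.le
      apply max_le (by norm_num)
      have h3 : Real.log 2 ≤ Real.log q := by
        apply Real.log_le_log (by norm_num)
        exact_mod_cast hq.two_le
      have h4 : (0.69 : ℝ) < Real.log 2 := by
        have := Real.log_two_gt_d9
        linarith
      have h5 : 1 / Real.log q ≤ 2 := by
        rw [div_le_iff₀ (by linarith)]
        linarith
      linarith [h2.1]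
    · exact hG4 (t' - η) D ht'η (by linarith) hD0
    · intro y hy1 hy2
      have hl := hlow y hy1
      have hyX : X ≤ y := ((le_max_left _ _).trans (le_max_right _ _)).trans hl
      have hyK : 2 * K ≤ y := ((le_max_right _ _).trans (le_max_right _ _)).trans hl
      refine le_trans ?_ (hX y hyX)
      have : blk (fun q => 0 < h q) y ≤ blk (fun q => gg q < t) y := by
        unfold blk
        apply Finset.card_le_card
        intro q hq
        simp only [Finset.mem_filter, Finset.mem_Ioc] at hq ⊢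
        refine ⟨hq.1, hq.2.1, ?_⟩
        have hKq : K ≤ q := by omega
        have h5 := (hK q hKq).trans (min_le_left _ _)
        by_contra hc
        have hc' : t ≤ gg q := not_lt.1 hc
        have h3 : h q = 0 := by
          simp only [hh]
          rw [max_eq_left (by linarith), zero_div]
        have h6 := hq.2.2
        linarith
      exact_mod_cast this
    · intro y hy
      exact hX1 y ((le_max_left _ _).trans (hlow y hy))
  have hfin := hX0 h x0 hx00 hPH
  apply hα.above (α + w / 7) (by linarith)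
  apply small_mono _ (fun q => 3 / 4 ≤ h q) _ hfin
  intro q hqp hq
  have hq' : gg q < α + w / 7 := hq
  show 3 / 4 ≤ max 0 ((t' - η) - gg q + 1 / Real.log q) / D
  rw [le_div_iff₀ hD0]
  refine le_trans ?_ (le_max_right _ _)
  have h8 : 0 ≤ 1 / Real.log (q : ℝ) := by
    apply div_nonneg zero_le_one
    exact Real.log_natCast_nonneg _
  rw [hD]
  linarith

end Pool.Agent.Helper6.TOT
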